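import Mathlib
import Pool.Agent.Sq42_Def.ArithSets
import Pool.Agent.SQD.Stmts

/-!
# Arithmetical relations on the rigid numbers are definable
-/

set_option autoImplicit false

namespace Pool.Agent.SQR

open FirstOrder FirstOrder.Language Pool.Agent.SqDef Pool.Agent.SQD

variable {L : FirstOrder.Language.{0, 0}} [L.Structure ℕ]

/-! ## Existential quantification of a block of variables -/

/-- the valuation with the values `x` at the places `k, ..., k + r - 1` -/
def blk (k r : ℕ) (x : Fin r → ℕ) (v : ℕ → ℕ) (n : ℕ) : ℕ :=
  if h : k ≤ n ∧ n < k + r then x ⟨n - k, by omega⟩ else v n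

theorem D_exs (k r : ℕ) {P : (ℕ → ℕ) → Prop} (h : D L P) :
    D L (fun v => ∃ x : Fin r → ℕ, P (blk k r x v)) := by
  obtain ⟨φ, hφ⟩ := h
  let g : ℕ → ℕ ⊕ Fin r := fun n => if h : k ≤ n ∧ n < k + r then
    Sum.inr ⟨n - k, by omega⟩ else Sum.inl n
  refine ⟨(φ.relabel g).iExs (Fin r), fun v => ?_⟩
  rw [Formula.realize_iExs]
  refine exists_congr fun i => ?_
  rw [Formula.realize_relabel, ← hφ]
  have : Sum.elim v i ∘ g = blk k r i v := by
    funext n
    simp only [Function.comp, g, blk]
    split_ifs with hn
    · rfl
    · rfl
  rw [this]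

theorem D_forall_lt (σ : Sig L) (r : ℕ) {R : ℕ → ℕ → Prop} (h : D2 L R) (i₀ j₀ : ℕ) :
    D L (fun v => ∀ i : Fin r, R (v (i₀ + i)) (v (j₀ + i))) := by
  induction r with
  | zero => exact (D.const True).congr fun v => ⟨fun _ i => i.elim0, fun _ => trivial⟩
  | succ r ih =>
    refine (ih.and (h.at σ (i₀ + r) 0 (j₀ + r) 0)).congr fun v => ?_
    constructor
    · rintro ⟨h1, h2⟩ i
      refine Fin.lastCases ?_ (fun i => ?_) i
      · simpa using h2
      · simpa using h1 i
    · intro h1
      exact ⟨fun i => by simpa using h1 i.castSucc, by simpa using h1 (Fin.last r)⟩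

/-! ## Arithmetical relations of any arity are definable on exponents -/

/-- the valuation of the variables of a bounded formula read from a sequence of exponents -/
def valr (r n : ℕ) (w : ℕ → ℕ) : (Fin r) ⊕ (Fin n) → ℕ :=
  Sum.elim (fun i => w i - 1) (fun i => w (r + i) - 1)

theorem valr_update {r n k x : ℕ} (w : ℕ → ℕ) (hk : r + n ≤ k) :
    valr r n (Function.update w k x) = valr r n w := by
  funext s
  rcases s with s | s
  · simp only [valr, Sum.elim_inl]
    rw [Function.update_of_ne (by have := s.2; omega)]
  · simp only [valr, Sum.elim_inr]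
    rw [Function.update_of_ne (by have := s.2; omega)]

theorem term_EDr (σ : Sig L) {r n : ℕ} (t : arithLang.Term ((Fin r) ⊕ (Fin n))) :
    ∀ k, ED L (fun w => w k = t.realize (valr r n w) + 1) := by
  induction t with
  | var s =>
    intro k
    rcases s with s | s
    · refine ((E2_eq (L := L)).at σ k s).congr fun w hw => ?_
      have := hw s
      simp only [Term.realize_var, valr, Sum.elim_inl]
      omega
    · refine ((E2_eq (L := L)).at σ k (r + s)).congr fun w hw => ?_
      have := hw (r + s)
      simp only [Term.realize_var, valr, Sum.elim_inr]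
      omega
  | @func l f ts ih =>
    intro k
    cases f with
    | add =>
      -- fresh indices
      set a := r + n + k + 2 with ha
      set b := r + n + k + 3 with hb
      set c := r + n + k + 4 with hc
      have h1 : ED L (fun w => w a = (ts 0).realize (valr r n w) + 1 ∧
          w b = (ts 1).realize (valr r n w) + 1 ∧ w a + w b = w c ∧ w c = w k + 1) :=
        (ih 0 a).and ((ih 1 b).and (((E3_add σ).at σ a b c).and ((E2_succ σ).at σ k c)))
      refine (((h1.ex σ c).ex σ b).ex σ a).congr fun w hw => ?_
      have hfm : (Term.func ArithFunc.add ts : arithLang.Term _).realize (valr r n w) =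
          (ts 0).realize (valr r n w) + (ts 1).realize (valr r n w) := rfl
      rw [hfm]
      have e1 : ∀ x y z, valr r n (Function.update (Function.update (Function.update w a x) b y)
          c z) = valr r n w := by
        intro x y z
        rw [valr_update _ (by omega), valr_update _ (by omega), valr_update _ (by omega)]
      constructor
      · rintro ⟨x, hx, y, hy, z, hz, h⟩
        rw [e1] at h
        simp only [ha, hb, hc, Function.update_self, Function.update_of_ne, ne_eq,
          Nat.add_left_cancel_iff, Nat.reduceEqDiff, not_false_eq_true] at h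
        rw [Function.update_of_ne (by omega), Function.update_of_ne (by omega),
          Function.update_of_ne (by omega)] at h
        omega
      · intro h
        refine ⟨(ts 0).realize (valr r n w) + 1, by omega, (ts 1).realize (valr r n w) + 1,
          by omega,
          (ts 0).realize (valr r n w) + 1 + ((ts 1).realize (valr r n w) + 1), by omega, ?_⟩
        rw [e1]
        simp only [ha, hb, hc, Function.update_self, Function.update_of_ne, ne_eq,
          Nat.add_left_cancel_iff, Nat.reduceEqDiff, not_false_eq_true]
        rw [Function.update_of_ne (by omega), Function.update_of_ne (by omega),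
          Function.update_of_ne (by omega)]
        simp only [true_and]
        omega
    | mul =>
      set a := r + n + k + 2 with ha
      set b := r + n + k + 3 with hb
      set c := r + n + k + 4 with hc
      set d := r + n + k + 5 with hd
      set e := r + n + k + 6 with he
      set g := r + n + k + 7 with hg
      have h1 : ED L (fun w => w a = (ts 0).realize (valr r n w) + 1 ∧
          w b = (ts 1).realize (valr r n w) + 1 ∧ w a * w b = w c ∧ w a + w b = w d ∧
          w d + w k = w e ∧ w g = w c + 1 ∧ w e = w g + 1) :=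
        (ih 0 a).and ((ih 1 b).and (((E3_mul σ).at σ a b c).and (((E3_add σ).at σ a b d).and
          (((E3_add σ).at σ d k e).and (((E2_succ σ).at σ c g).and ((E2_succ σ).at σ g e))))))
      refine ((((((h1.ex σ g).ex σ e).ex σ d).ex σ c).ex σ b).ex σ a).congr fun w hw => ?_
      have hfm : (Term.func ArithFunc.mul ts : arithLang.Term _).realize (valr r n w) =
          (ts 0).realize (valr r n w) * (ts 1).realize (valr r n w) := rfl
      rw [hfm]
      have e1 : ∀ x y z x' y' z', valr r n (Function.update (Function.update (Function.update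
          (Function.update (Function.update (Function.update w a x) b y) c z) d x') e y') g z')
          = valr r n w := by
        intro x y z x' y' z'
        rw [valr_update _ (by omega), valr_update _ (by omega), valr_update _ (by omega),
          valr_update _ (by omega), valr_update _ (by omega), valr_update _ (by omega)]
      constructor
      · rintro ⟨x, hx, y, hy, z, hz, x', hx', y', hy', z', hz', h⟩
        rw [e1] at h
        simp only [ha, hb, hc, hd, he, hg, Function.update_self, Function.update_of_ne, ne_eq,
          Nat.add_left_cancel_iff, Nat.reduceEqDiff, not_false_eq_true] at h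
        rw [Function.update_of_ne (by omega), Function.update_of_ne (by omega),
          Function.update_of_ne (by omega), Function.update_of_ne (by omega),
          Function.update_of_ne (by omega), Function.update_of_ne (by omega)] at h
        obtain ⟨h2, h3, h4, h5, h6, h7, h8⟩ := h
        rw [h2, h3] at h4 h5
        have h9 : z = (ts 0).realize (valr r n w) * (ts 1).realize (valr r n w) +
          (ts 0).realize (valr r n w) + (ts 1).realize (valr r n w) + 1 := by
          rw [← h4]; ring
        omega
      · intro h
        refine ⟨(ts 0).realize (valr r n w) + 1, by omega, (ts 1).realize (valr r n w) + 1,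
          by omega,
          ((ts 0).realize (valr r n w) + 1) * ((ts 1).realize (valr r n w) + 1),
          Nat.mul_pos (by omega) (by omega),
          ((ts 0).realize (valr r n w) + 1) + ((ts 1).realize (valr r n w) + 1), by omega,
          ((ts 0).realize (valr r n w) + 1) + ((ts 1).realize (valr r n w) + 1) + w k, by omega,
          ((ts 0).realize (valr r n w) + 1) * ((ts 1).realize (valr r n w) + 1) + 1,
          by omega, ?_⟩
        rw [e1]
        simp only [ha, hb, hc, hd, he, hg, Function.update_self, Function.update_of_ne, ne_eq,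
          Nat.add_left_cancel_iff, Nat.reduceEqDiff, not_false_eq_true]
        rw [Function.update_of_ne (by omega), Function.update_of_ne (by omega),
          Function.update_of_ne (by omega), Function.update_of_ne (by omega),
          Function.update_of_ne (by omega), Function.update_of_ne (by omega)]
        have h9 : ((ts 0).realize (valr r n w) + 1) * ((ts 1).realize (valr r n w) + 1) =
          (ts 0).realize (valr r n w) * (ts 1).realize (valr r n w) +
          (ts 0).realize (valr r n w) + (ts 1).realize (valr r n w) + 1 := by ring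
        rw [h9]
        simp only [true_and]
        omega

theorem formula_EDr (σ : Sig L) {r n : ℕ} (φ : arithLang.BoundedFormula (Fin r) n) :
    ED L (fun w => φ.Realize (fun i => w i - 1) (fun i => w (r + i) - 1)) := by
  induction φ with
  | falsum =>
    exact ⟨fun _ => False, D.const False, fun w _ => Iff.rfl⟩
  | @equal n t₁ t₂ =>
    have h1 := (term_EDr σ t₁ (r + n + 2)).and (term_EDr σ t₂ (r + n + 2))
    refine (h1.ex σ (r + n + 2)).congr fun w hw => ?_
    change _ ↔ t₁.realize (valr r n w) = t₂.realize (valr r n w)
    constructor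
    · rintro ⟨x, _, h2, h3⟩
      rw [valr_update _ (by omega), Function.update_self] at h2 h3
      omega
    · intro h
      refine ⟨t₁.realize (valr r n w) + 1, by omega, ?_⟩
      rw [valr_update _ (by omega), Function.update_self]
      exact ⟨rfl, by rw [h]⟩
  | rel R ts => exact nomatch R
  | imp φ ψ ih1 ih2 => exact ih1.imp ih2
  | @all n φ ih =>
    refine (ih.all σ (r + n)).congr fun w hw => ?_
    rw [BoundedFormula.realize_all]
    have key : ∀ x : ℕ, (fun i : Fin (n + 1) =>
        Function.update w (r + n) (x + 1) (r + i) - 1) =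
        Fin.snoc (fun i : Fin n => w (r + i) - 1) x := by
      intro x
      funext i
      refine Fin.lastCases ?_ (fun i => ?_) i
      · simp
      · rw [Fin.snoc_castSucc, Function.update_of_ne]
        · simp
        · have := i.2
          simp only [Fin.val_castSucc]
          omega
    have key0 : ∀ x : ℕ, (fun i : Fin r => Function.update w (r + n) (x + 1) i - 1) =
        (fun i : Fin r => w i - 1) := by
      intro x
      funext i
      rw [Function.update_of_ne (by have := i.2; omega)]
    constructor
    · intro h x
      have h2 := h (x + 1) (by omega)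
      rw [key, key0] at h2
      exact h2
    · intro h x hx
      obtain ⟨y, rfl⟩ : ∃ y, x = y + 1 := ⟨x - 1, by omega⟩
      rw [key, key0]
      exact h y

/-- Arithmetical relations are definable on exponents. -/
theorem arith_EDr (σ : Sig L) {r : ℕ} {R : Set (Fin r → ℕ)}
    (hR : Set.Definable (∅ : Set ℕ) arithLang R) :
    ED L (fun w => (fun i : Fin r => w i - 1) ∈ R) := by
  rw [Set.empty_definable_iff] at hR
  obtain ⟨φ, hφ⟩ := hR
  refine (formula_EDr σ φ).congr fun w hw => ?_
  rw [hφ]
  change _ ↔ φ.Realize (fun i : Fin r => w i - 1)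
  unfold Formula.Realize
  have h3 : ∀ xs ys : Fin 0 → ℕ,
      BoundedFormula.Realize φ (fun i : Fin r => w i - 1) xs ↔
      BoundedFormula.Realize φ (fun i : Fin r => w i - 1) ys :=
    fun xs ys => by rw [Subsingleton.elim xs ys]
  exact h3 _ _

/-! ## The rigid numbers -/

/-- the numbers `u + K`, `u ≥ 1`, such that `u` is the only element of its class -/
def Rig (K : ℕ) (y : ℕ) : Prop :=
  ∃ u : ℕ, 1 ≤ u ∧ y = u + K ∧ ∀ v : ℕ, 1 ≤ v → Win K u v → v = u

/-- For rigid `y` there is a definable relation between codes and numbers, which holds exactly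
for the code of `y + 1`. -/
theorem exists_code (σ : Sig L) (K : ℕ) :
    D1 L (Rig K) ∧ ∃ Q : ℕ → ℕ → Prop, D2 L Q ∧
      ∀ d y, Rig K y → (Q d y ↔ d = cd (y + 1)) := by
  obtain ⟨QS, hQS, hQS'⟩ := exists_same σ K
  obtain ⟨T, hT, hT'⟩ := E2.toD σ (E2_shift σ (K + 1))
  constructor
  · -- 0 = y, 1 = u, 2 = c, 3 = c'
    have h1 : D L (fun v => IsCode (v 2) → IsCode (v 3) → QS (v 2) (v 1) → QS (v 3) (v 1) →
        v 2 = v 3) :=
      ((D1_isCode σ).at σ 2 0).imp (((D1_isCode σ).at σ 3 0).imp
        ((hQS.at σ 2 0 1 0).imp ((hQS.at σ 3 0 1 0).imp (D.eq 2 3))))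
    have h2 : D L (fun v => ¬ v 1 = 0) := (D.isConst σ 1 0).not
    have h3 : D L (fun v => v 0 = v 1 + K) := D2.at σ (R := fun x y => x = y) (D.eq 0 1) 0 0 1 K
    refine ((h2.and (h3.and ((h1.all 3).all 2))).ex 1).congr fun v => ?_
    unfold Rig
    constructor
    · rintro ⟨u, h4, h5, h6⟩
      simp at h4 h5 h6
      refine ⟨u, by omega, h5, fun x hx hw => ?_⟩
      have h7 := h6 (cd x) (cd u) ⟨x, hx, rfl⟩ ⟨u, by omega, rfl⟩
        ((hQS' x u hx).2 fun j hj p hp => (hw j hj p hp).symm)
        ((hQS' u u (by omega)).2 fun j hj p hp => Iff.rfl)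
      exact cd_inj h7
    · rintro ⟨u, h4, h5, h6⟩
      refine ⟨u, ?_⟩
      simp
      refine ⟨by omega, h5, fun c c' hc hc' hs hs' => ?_⟩
      obtain ⟨x, hx, rfl⟩ := hc
      obtain ⟨x', hx', rfl⟩ := hc'
      have e1 : x = u := h6 x hx fun j hj p hp => ((hQS' x u hx).1 hs j hj p hp).symm
      have e2 : x' = u := h6 x' hx' fun j hj p hp => ((hQS' x' u hx').1 hs' j hj p hp).symm
      rw [e1, e2]
  · -- 0 = d, 1 = y, 2 = u, 3 = c
    refine ⟨fun d y => ∃ u c, y = u + K ∧ IsCode d ∧ IsCode c ∧ QS c u ∧ T c d, ?_, ?_⟩
    · have h3 : D L (fun v => v 1 = v 2 + K) :=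
        D2.at σ (R := fun x y => x = y) (D.eq 0 1) 1 0 2 K
      refine (((h3.and (((D1_isCode σ).at σ 0 0).and (((D1_isCode σ).at σ 3 0).and
        ((hQS.at σ 3 0 2 0).and (hT.at σ 3 0 0 0))))).ex 3).ex 2).congr fun v => ?_
      simp
    · intro d y hy
      obtain ⟨u, hu, rfl, hr⟩ := hy
      constructor
      · rintro ⟨u', c, h1, ⟨b, hb, rfl⟩, ⟨a, ha, rfl⟩, h4, h5⟩
        have hu' : u' = u := by omega
        rw [hu'] at h4
        have e1 : a = u := hr a ha fun j hj p hp => ((hQS' a u ha).1 h4 j hj p hp).symm
        rw [hT' a b ha hb, e1] at h5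
        rw [h5]
        rfl
      · intro hd
        refine ⟨u, cd u, rfl, ⟨u + K + 1, by omega, hd⟩, ⟨u, hu, rfl⟩,
          (hQS' u u hu).2 fun j hj p hp => Iff.rfl, ?_⟩
        rw [hd, hT' u (u + K + 1) hu (by omega)]
        rfl

/-- a definable predicate depending on `r` variables gives a definable set -/
theorem D_definable (r : ℕ) {P : (ℕ → ℕ) → Prop} (h : D L P) (S : Set (Fin r → ℕ))
    (hS : ∀ v : ℕ → ℕ, P v ↔ (fun i : Fin r => v i) ∈ S) :
    Set.Definable (∅ : Set ℕ) L S := by
  rcases Nat.eq_zero_or_pos r with h0 | h0
  · subst h0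
    by_cases hne : S.Nonempty
    · have : S = Set.univ := by
        obtain ⟨x, hx⟩ := hne
        ext y
        rw [Subsingleton.elim y x]
        simp [hx]
      rw [this]
      exact Set.definable_univ
    · rw [Set.not_nonempty_iff_eq_empty.1 hne]
      exact Set.definable_empty
  · obtain ⟨φ, hφ⟩ := h
    rw [Set.empty_definable_iff]
    let g : ℕ → Fin r := fun n => if h : n < r then ⟨n, h⟩ else ⟨0, h0⟩
    refine ⟨φ.relabel g, ?_⟩
    ext v
    change v ∈ S ↔ (φ.relabel g).Realize v
    rw [Formula.realize_relabel, hφ, hS]
    have : (fun i : Fin r => (v ∘ g) i) = v := by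
      funext i
      simp [g]
    rw [this]

/-- **Every arithmetical relation between rigid numbers is definable.** -/
theorem rig_definable (σ : Sig L) (K r : ℕ) (R : Set (Fin r → ℕ))
    (hR : Set.Definable (∅ : Set ℕ) arithLang R) :
    Set.Definable (∅ : Set ℕ) L {v : Fin r → ℕ | (∀ i, Rig K (v i)) ∧ v ∈ R} := by
  obtain ⟨hRig, Q, hQ, hQ'⟩ := exists_code σ K
  obtain ⟨P, hP, hP'⟩ := arith_EDr σ hR
  -- places: `v i` for `i < r`, codes at `r + i`, the constant 1 at `2 r`
  have h1 : D L (fun v => ∀ i : Fin r, Rig K (v (0 + i))) := by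
    have : D2 L (fun x _ => Rig K x) := hRig.at σ 0 0
    exact D_forall_lt σ r this 0 0
  have h2 : D L (fun v => ∀ i : Fin r, Q (v (r + i)) (v (0 + i))) := D_forall_lt σ r hQ r 0
  have h3 : D L (fun v => P (fun n => v (if n < r then r + n else 2 * r) + 0)) :=
    hP.sub σ (fun n => if n < r then r + n else 2 * r) (fun _ => 0)
  have h4 := ((D_exs r r ((h1.and (h2.and h3)).setc σ (2 * r) 1)))
  refine D_definable r h4 _ fun v => ?_
  have key : ∀ x : Fin r → ℕ,
      ((∀ i : Fin r, Rig K (Function.update (blk r r x v) (2 * r) 1 (0 + i))) ∧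
      (∀ i : Fin r, Q (Function.update (blk r r x v) (2 * r) 1 (r + i))
        (Function.update (blk r r x v) (2 * r) 1 (0 + i))) ∧
      P (fun n => Function.update (blk r r x v) (2 * r) 1 (if n < r then r + n else 2 * r) + 0)) ↔
      ((∀ i : Fin r, Rig K (v i)) ∧ (∀ i : Fin r, Q (x i) (v i)) ∧
        P (fun n => if h : n < r then x ⟨n, h⟩ else 1)) := by
    intro x
    have e1 : ∀ i : Fin r, Function.update (blk r r x v) (2 * r) 1 (0 + i) = v i := by
      intro i
      have := i.2
      rw [Function.update_of_ne (by omega), zero_add, blk, dif_neg (by omega)]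
    have e2 : ∀ i : Fin r, Function.update (blk r r x v) (2 * r) 1 (r + i) = x i := by
      intro i
      have := i.2
      rw [Function.update_of_ne (by omega), blk, dif_pos (by omega)]
      congr 1
      ext
      simp
    have e3 : (fun n => Function.update (blk r r x v) (2 * r) 1
        (if n < r then r + n else 2 * r) + 0) = (fun n => if h : n < r then x ⟨n, h⟩ else 1) := by
      funext n
      by_cases hn : n < r
      · rw [if_pos hn, dif_pos hn, add_zero]
        exact e2 ⟨n, hn⟩
      · rw [if_neg hn, dif_neg hn, Function.update_self]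
    simp only [e1, e2, e3]
  constructor
  · rintro ⟨x, hx⟩
    obtain ⟨g1, g2, g3⟩ := (key x).1 hx
    refine ⟨g1, ?_⟩
    have g4 : ∀ i : Fin r, x i = cd (v i + 1) := fun i => (hQ' _ _ (g1 i)).1 (g2 i)
    have g5 : (fun n => if h : n < r then x ⟨n, h⟩ else 1) =
        (fun n => cd ((fun n => if n < r then v n + 1 else 1) n)) := by
      funext n
      by_cases hn : n < r
      · simp only [dif_pos hn, if_pos hn]
        exact g4 ⟨n, hn⟩
      · simp only [dif_neg hn, if_neg hn]
        rfl
    rw [g5, hP' _ (fun n => by split_ifs <;> omega)] at g3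
    have g6 : (fun i : Fin r => (fun n => if n < r then v n + 1 else 1) (i : ℕ) - 1) =
        (fun i : Fin r => v i) := by
      funext i
      simp
    rw [g6] at g3
    exact g3
  · rintro ⟨g1, g2⟩
    refine ⟨fun i => cd (v i + 1), (key _).2 ⟨g1, fun i => (hQ' _ _ (g1 i)).2 rfl, ?_⟩⟩
    have g5 : (fun n => if h : n < r then (fun i : Fin r => cd (v i + 1)) ⟨n, h⟩ else 1) =
        (fun n => cd ((fun n => if n < r then v n + 1 else 1) n)) := by
      funext n
      by_cases hn : n < r
      · simp only [dif_pos hn, if_pos hn]
      · simp only [dif_neg hn, if_neg hn]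
        rfl
    rw [g5, hP' _ (fun n => by split_ifs <;> omega)]
    have g6 : (fun i : Fin r => (fun n => if n < r then v n + 1 else 1) (i : ℕ) - 1) =
        (fun i : Fin r => v i) := by
      funext i
      simp
    change (fun i : Fin r => (fun n => if n < r then v n + 1 else 1) (i : ℕ) - 1) ∈ R
    rw [g6]
    exact g2

end Pool.Agent.SQR
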