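import Mathlib

/-!
# A lemma of the type of Størmer

If `x` and `y` have the same prime divisors, `x + 1` and `y + 1` have the same prime divisors, and
`x y`, `(x + 1)(y + 1)` are perfect squares, then `x = y`.
-/

set_option autoImplicit false

namespace Pool.Agent.SQR

/-- the sequences `X n`, `U n` with `(x + y √d) ^ n = X n + y U n √d`, in terms of `x` only -/
def XU (x : ℤ) : ℕ → ℤ × ℤ
  | 0 => (1, 0)
  | n + 1 => (x * (XU x n).1 + (x ^ 2 - 1) * (XU x n).2, x * (XU x n).2 + (XU x n).1)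

theorem XU_succ (x : ℤ) (n : ℕ) : XU x (n + 1) =
    (x * (XU x n).1 + (x ^ 2 - 1) * (XU x n).2, x * (XU x n).2 + (XU x n).1) := rfl

theorem XU_pow {d : ℤ} (s : Pell.Solution₁ d) (n : ℕ) :
    (s ^ n).x = (XU s.x n).1 ∧ (s ^ n).y = s.y * (XU s.x n).2 := by
  induction n with
  | zero => simp [XU]
  | succ n ih =>
    rw [pow_succ, Pell.Solution₁.x_mul, Pell.Solution₁.y_mul, XU_succ, ih.1, ih.2]
    have h := s.prop
    refine ⟨?_, ?_⟩
    · linear_combination (-(XU s.x n).2) * h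
    · ring

theorem XU_mod (x : ℤ) (n : ℕ) :
    (∃ k, x * (XU x n).2 = n * x ^ n + (x ^ 2 - 1) * k) ∧
    (∃ k, (XU x n).1 = x ^ n + (x ^ 2 - 1) * k) := by
  induction n with
  | zero => exact ⟨⟨0, by simp [XU]⟩, ⟨0, by simp [XU]⟩⟩
  | succ n ih =>
    obtain ⟨⟨k, hk⟩, ⟨l, hl⟩⟩ := ih
    rw [XU_succ]
    refine ⟨⟨x * k + x * l, ?_⟩, ⟨x * l + (XU x n).2, ?_⟩⟩
    · push_cast
      linear_combination x * hk + x * hl
    · simp only
      linear_combination x * hl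

theorem XU_mod2 (x : ℤ) (n : ℕ) :
    (∃ k, x ^ 3 * (XU x n).2 = n * x ^ (n + 2) + (n.choose 3) * x ^ n * (x ^ 2 - 1) +
      (x ^ 2 - 1) ^ 2 * k) ∧
    (∃ k, x ^ 2 * (XU x n).1 = x ^ (n + 2) + (n.choose 2) * x ^ n * (x ^ 2 - 1) +
      (x ^ 2 - 1) ^ 2 * k) := by
  induction n with
  | zero => exact ⟨⟨0, by simp [XU]⟩, ⟨0, by simp [XU]⟩⟩
  | succ n ih =>
    obtain ⟨⟨k, hk⟩, ⟨l, hl⟩⟩ := ih
    obtain ⟨⟨m, hm⟩, -⟩ := XU_mod x n
    rw [XU_succ]
    have e3 : ((n + 1).choose 3 : ℤ) = n.choose 2 + n.choose 3 := by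
      exact_mod_cast Nat.choose_succ_succ n 2
    have e2 : ((n + 1).choose 2 : ℤ) = n + n.choose 2 := by
      have := Nat.choose_succ_succ n 1
      rw [Nat.choose_one_right] at this
      exact_mod_cast this
    refine ⟨⟨x * k + x * l, ?_⟩, ⟨x * l + x * m, ?_⟩⟩
    · rw [e3]
      push_cast
      linear_combination x * hk + x * hl
    · rw [e2]
      simp only
      linear_combination x * hl + x * (x ^ 2 - 1) * hm

theorem XU_grow {x : ℤ} (hx : 2 ≤ x) (n : ℕ) :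
    1 ≤ (XU x n).1 ∧ (2 : ℤ) ^ n - 1 ≤ (XU x n).2 := by
  induction n with
  | zero => simp [XU]
  | succ n ih =>
    obtain ⟨h1, h2⟩ := ih
    rw [XU_succ]
    have h3 : (1 : ℤ) ≤ 2 ^ n := one_le_pow₀ (by norm_num)
    have h4 : 0 ≤ (XU x n).2 := by linarith
    simp only
    constructor
    · nlinarith [mul_nonneg (by nlinarith : (0 : ℤ) ≤ x ^ 2 - 1) h4]
    · rw [pow_succ]
      nlinarith

theorem y_dvd_pow {d : ℤ} (s : Pell.Solution₁ d) (n : ℕ) : s.y ∣ (s ^ n).y :=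
  ⟨_, (XU_pow s n).2⟩

theorem prime_dvd_y {d : ℤ} (s : Pell.Solution₁ d) (p : ℤ) (a b : ℕ)
    (ha : p ∣ (s ^ a).y) (hb : p ∣ (s ^ b).y) : p ∣ (s ^ (Nat.gcd a b)).y := by
  let H : AddSubgroup ℤ :=
    { carrier := {n : ℤ | p ∣ (s ^ n).y}
      zero_mem' := by simp
      add_mem' := by
        intro m n hm hn
        change p ∣ (s ^ m).y at hm; change p ∣ (s ^ n).y at hn; change p ∣ (s ^ (m + n)).y
        rw [zpow_add, Pell.Solution₁.y_mul]
        exact dvd_add (Dvd.dvd.mul_left hn _) (Dvd.dvd.mul_right hm _)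
      neg_mem' := by
        intro n hn
        change p ∣ (s ^ n).y at hn; change p ∣ (s ^ (-n)).y
        rw [zpow_neg, Pell.Solution₁.y_inv]
        exact (dvd_neg).2 hn }
  have ha' : (a : ℤ) ∈ H := by
    change p ∣ (s ^ (a : ℤ)).y
    rw [zpow_natCast]; exact ha
  have hb' : (b : ℤ) ∈ H := by
    change p ∣ (s ^ (b : ℤ)).y
    rw [zpow_natCast]; exact hb
  have h : ((Nat.gcd a b : ℕ) : ℤ) ∈ H := by
    rw [Nat.gcd_eq_gcd_ab, mul_comm (a : ℤ), mul_comm (b : ℤ)]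
    exact H.add_mem (by simpa using H.zsmul_mem ha' _) (by simpa using H.zsmul_mem hb' _)
  have h2 : p ∣ (s ^ ((Nat.gcd a b : ℕ) : ℤ)).y := h
  rwa [zpow_natCast] at h2

/-- If every prime divisor of the `b`-th solution divides `d` or the `a`-th solution, `b ∣ a`. -/
theorem index_dvd {d : ℤ} (s : Pell.Solution₁ d) (hx : 1 < s.x) (hy : 0 < s.y) (a b : ℕ)
    (hb : 0 < b)
    (h : ∀ p : ℕ, p.Prime → (p : ℤ) ∣ (s ^ b).y → (p : ℤ) ∣ d ∨ (p : ℤ) ∣ (s ^ a).y) :
    b ∣ a := by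
  obtain ⟨g, hgdef⟩ : ∃ g, g = Nat.gcd a b := ⟨_, rfl⟩
  obtain ⟨c, hc⟩ : g ∣ b := by rw [hgdef]; exact Nat.gcd_dvd_right a b
  have hg : 0 < g := by rw [hgdef]; exact Nat.gcd_pos_of_pos_right _ hb
  rcases Nat.lt_or_ge c 2 with hc2 | hc2
  · interval_cases c
    · omega
    · rw [mul_one] at hc
      rw [hc, hgdef]
      exact Nat.gcd_dvd_left a b
  exfalso
  obtain ⟨t, ht⟩ : ∃ t, t = s ^ g := ⟨_, rfl⟩
  have htx : 2 ≤ t.x := by
    have h1 : 0 < t.x := by
      rw [ht]; exact Pell.Solution₁.x_pow_pos (a := s) (by linarith) g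
    have h2 : 0 < t.y := by
      obtain ⟨g', hg'⟩ : ∃ g', g = g' + 1 := ⟨g - 1, by omega⟩
      rw [ht, hg']
      exact Pell.Solution₁.y_pow_succ_pos (by linarith) hy g'
    have h3 := t.prop
    by_contra h4
    have h5 : t.x = 1 := by
      have : 0 < t.x := h1
      omega
    rw [h5] at h3
    have hd : 0 < d := by
      have h6 := s.prop
      by_contra hd
      nlinarith [mul_nonneg (by linarith : 0 ≤ -d) (sq_nonneg s.y)]
    nlinarith [mul_pos hd (pow_pos h2 2)]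
  have hN : d * t.y ^ 2 = t.x ^ 2 - 1 := by have := t.prop; linarith
  have hyb : (s ^ b).y = t.y * (XU t.x c).2 := by
    rw [hc, pow_mul, ← ht, (XU_pow t c).2]
  -- every prime divisor of `U c` divides `N`
  have key : ∀ p : ℕ, p.Prime → (p : ℤ) ∣ (XU t.x c).2 → (p : ℤ) ∣ t.x ^ 2 - 1 := by
    intro p hp hd
    have h1 : (p : ℤ) ∣ (s ^ b).y := by rw [hyb]; exact Dvd.dvd.mul_left hd _
    rw [← hN]
    rcases h p hp h1 with h2 | h2
    · exact Dvd.dvd.mul_right h2 _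
    · have h3 := prime_dvd_y s p a b h2 h1
      rw [← hgdef, ← ht] at h3
      exact Dvd.dvd.mul_left (dvd_pow h3 two_ne_zero) _
  have notx : ∀ p : ℕ, p.Prime → (p : ℤ) ∣ t.x ^ 2 - 1 → ¬ (p : ℤ) ∣ t.x := by
    intro p hp h1 h2
    have h3 : (p : ℤ) ∣ 1 := by
      have := dvd_sub (dvd_pow h2 two_ne_zero) h1
      simpa using this
    exact hp.one_lt.ne' (by exact_mod_cast Int.eq_one_of_dvd_one (by positivity) h3)
  have hUc : 3 ≤ (XU t.x c).2 := by
    have := (XU_grow htx c).2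
    have h4 : (2 : ℤ) ^ 2 ≤ 2 ^ c := pow_le_pow_right₀ (by norm_num) hc2
    linarith
  obtain ⟨p, hp, hpU⟩ := Nat.exists_prime_and_dvd (n := (XU t.x c).2.natAbs) (by omega)
  have hpU' : (p : ℤ) ∣ (XU t.x c).2 := Int.natCast_dvd.2 hpU
  have hpZ : Prime (p : ℤ) := Nat.prime_iff_prime_int.1 hp
  have dvdc : ∀ q m : ℕ, q.Prime → (q : ℤ) ∣ (XU t.x m).2 → (q : ℤ) ∣ t.x ^ 2 - 1 → q ∣ m := by
    intro q m hq h1 h2
    obtain ⟨⟨k, hk⟩, -⟩ := XU_mod t.x m
    have h3 : (q : ℤ) ∣ m * t.x ^ m := by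
      have h4 : (m : ℤ) * t.x ^ m = t.x * (XU t.x m).2 - (t.x ^ 2 - 1) * k := by linarith
      rw [h4]
      exact dvd_sub (Dvd.dvd.mul_left h1 _) (Dvd.dvd.mul_right h2 _)
    rcases (Nat.prime_iff_prime_int.1 hq).dvd_or_dvd h3 with h4 | h4
    · exact_mod_cast h4
    · exact absurd ((Nat.prime_iff_prime_int.1 hq).dvd_of_dvd_pow h4) (notx q hq h2)
  have hpN := key p hp hpU'
  obtain ⟨e, he⟩ := dvdc p c hp hpU' hpN
  have hdiv : (XU t.x p).2 ∣ (XU t.x c).2 := by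
    have h1 : (t ^ p).y ∣ ((t ^ p) ^ e).y := y_dvd_pow _ _
    rw [← pow_mul, ← he, (XU_pow t p).2, (XU_pow t c).2] at h1
    refine Int.dvd_of_mul_dvd_mul_left ?_ h1
    intro h0
    rw [h0] at hN
    nlinarith
  have onlyp : ∀ q : ℕ, q.Prime → (q : ℤ) ∣ (XU t.x p).2 → q = p := by
    intro q hq h1
    exact (Nat.prime_dvd_prime_iff_eq hq hp).1
      (dvdc q p hq h1 (key q hq (h1.trans hdiv)))
  have hp2 := hp.two_le
  rcases Nat.lt_or_ge p 5 with h5 | h5
  · interval_cases p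
    · -- p = 2
      obtain ⟨q, hq, hqx⟩ := Nat.exists_prime_and_dvd (n := t.x.natAbs) (by omega)
      have hqx' : (q : ℤ) ∣ t.x := Int.natCast_dvd.2 hqx
      have h1 : (q : ℤ) ∣ (XU t.x 2).2 := by
        have : (XU t.x 2).2 = t.x * 2 := by
          simp [XU]; ring
        rw [this]; exact Dvd.dvd.mul_right hqx' _
      exact notx q hq (key q hq (h1.trans hdiv)) hqx'
    · -- p = 3
      have e3 : (XU t.x 3).2 = (2 * t.x - 1) * (2 * t.x + 1) := by
        simp [XU]; ring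
      obtain ⟨q, hq, hqx⟩ := Nat.exists_prime_and_dvd (n := (2 * t.x - 1).natAbs) (by omega)
      obtain ⟨r, hr, hrx⟩ := Nat.exists_prime_and_dvd (n := (2 * t.x + 1).natAbs) (by omega)
      have hqx' : (q : ℤ) ∣ 2 * t.x - 1 := Int.natCast_dvd.2 hqx
      have hrx' : (r : ℤ) ∣ 2 * t.x + 1 := Int.natCast_dvd.2 hrx
      have h1 := onlyp q hq (by rw [e3]; exact Dvd.dvd.mul_right hqx' _)
      have h2 := onlyp r hr (by rw [e3]; exact Dvd.dvd.mul_left hrx' _)
      subst h1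
      subst h2
      have h3 := dvd_sub hrx' hqx'
      have h4 : (2 * t.x + 1) - (2 * t.x - 1) = 2 := by ring
      rw [h4] at h3
      norm_num at h3
    · exact absurd hp (by norm_num)
  · -- p ≥ 5
    obtain ⟨⟨k, hk⟩, -⟩ := XU_mod2 t.x p
    have hsq : ¬ (p : ℤ) ^ 2 ∣ (XU t.x p).2 := by
      intro h1
      have h2 : (p : ℤ) ∣ (p.choose 3 : ℤ) := by
        exact_mod_cast hp.dvd_choose_self (by norm_num) (by omega)
      have h3 : (p : ℤ) ^ 2 ∣ (p.choose 3 : ℤ) * t.x ^ p * (t.x ^ 2 - 1) := by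
        rw [pow_two, mul_assoc]
        exact mul_dvd_mul h2 (Dvd.dvd.mul_left hpN _)
      have h4 : (p : ℤ) ^ 2 ∣ (t.x ^ 2 - 1) ^ 2 * k := Dvd.dvd.mul_right (pow_dvd_pow_of_dvd hpN 2) _
      have h5 : (p : ℤ) * t.x ^ (p + 2) = t.x ^ 3 * (XU t.x p).2 -
        (p.choose 3 : ℤ) * t.x ^ p * (t.x ^ 2 - 1) - (t.x ^ 2 - 1) ^ 2 * k := by linarith
      have h6 : (p : ℤ) ^ 2 ∣ (p : ℤ) * t.x ^ (p + 2) := by
        rw [h5]
        exact dvd_sub (dvd_sub (Dvd.dvd.mul_left h1 _) h3) h4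
      rw [pow_two] at h6
      have h7 : (p : ℤ) ∣ t.x ^ (p + 2) := Int.dvd_of_mul_dvd_mul_left hpZ.ne_zero h6
      exact notx p hp hpN (hpZ.dvd_of_dvd_pow h7)
    have hUp : (p : ℤ) < (XU t.x p).2 := by
      have h1 := (XU_grow htx p).2
      have h2 : ((p : ℤ) + 2) ≤ 2 ^ p := by
        have h3 : p + 2 ≤ 2 ^ p := by
          clear * - hp2
          induction p, hp2 using Nat.le_induction with
          | base => norm_num
          | succ n hn ih => rw [pow_succ]; omega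
        exact_mod_cast h3
      linarith
    -- `U p = p m`, `m > 1` has a prime divisor, which is `p`
    obtain ⟨q, hq, hqU⟩ := Nat.exists_prime_and_dvd (n := (XU t.x p).2.natAbs) (by omega)
    have hqU' : (q : ℤ) ∣ (XU t.x p).2 := Int.natCast_dvd.2 hqU
    have hqp := onlyp q hq hqU'
    subst hqp
    obtain ⟨m, hm⟩ := hqU'
    have hm1 : 1 < m := by
      by_contra h8
      have h9 : m ≤ 1 := by omega
      have : (XU t.x q).2 ≤ q := by
        rw [hm]
        nlinarith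
      linarith
    obtain ⟨r, hr, hrm⟩ := Nat.exists_prime_and_dvd (n := m.natAbs) (by omega)
    have hrm' : (r : ℤ) ∣ m := Int.natCast_dvd.2 hrm
    have h1 := onlyp r hr (by rw [hm]; exact Dvd.dvd.mul_left hrm' _)
    subst h1
    exact hsq (by rw [hm, pow_two]; exact mul_dvd_mul_left _ hrm')

/-- **Størmer type lemma.** -/
theorem sto (x y : ℕ) (hx : 1 ≤ x) (hy : 1 ≤ y)
    (h0 : ∀ p : ℕ, p.Prime → (p ∣ x ↔ p ∣ y)) (h1 : ∀ p : ℕ, p.Prime → (p ∣ x + 1 ↔ p ∣ y + 1))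
    (hs0 : IsSquare (x * y)) (hs1 : IsSquare ((x + 1) * (y + 1))) : x = y := by
  obtain ⟨d, b, hb, hd⟩ := Nat.sq_mul_squarefree (x * (x + 1))
  have hxx : 0 < x * (x + 1) := by positivity
  have hb0 : 0 < b := by
    rcases Nat.eq_zero_or_pos b with h | h
    · rw [h] at hb; simp at hb; omega
    · exact h
  have hd0 : 0 < d := Nat.pos_of_ne_zero hd.ne_zero
  -- `y (y + 1) = d u ^ 2`
  obtain ⟨u, hu⟩ : ∃ u, y * (y + 1) = d * u ^ 2 := by
    obtain ⟨r, hr⟩ := hs0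
    obtain ⟨r', hr'⟩ := hs1
    have h2 : b ^ 2 * (d * (y * (y + 1))) = (r * r') ^ 2 := by
      calc b ^ 2 * (d * (y * (y + 1))) = (b ^ 2 * d) * (y * (y + 1)) := by ring
        _ = (x * y) * ((x + 1) * (y + 1)) := by rw [hb]; ring
        _ = (r * r') ^ 2 := by rw [hr, hr']; ring
    obtain ⟨v, hv⟩ : b ∣ r * r' := by
      have : b ^ 2 ∣ (r * r') ^ 2 := ⟨_, h2.symm⟩
      exact (Nat.pow_dvd_pow_iff two_ne_zero).1 this
    have h3 : d * (y * (y + 1)) = v ^ 2 := by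
      rw [hv, mul_pow] at h2
      exact Nat.eq_of_mul_eq_mul_left (by positivity) h2
    have h4 : d ∣ v := by
      have : d ∣ v ^ 2 := ⟨_, h3.symm⟩
      exact (hd.dvd_pow_iff_dvd two_ne_zero).1 this
    obtain ⟨u, rfl⟩ := h4
    refine ⟨u, ?_⟩
    have h5 : d * (y * (y + 1)) = d * (d * u ^ 2) := by rw [h3]; ring
    exact Nat.eq_of_mul_eq_mul_left hd0 h5
  have hu0 : 0 < u := by
    rcases Nat.eq_zero_or_pos u with h | h
    · rw [h] at hu; simp at hu; omega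
    · exact h
  have hns : ¬ IsSquare ((d : ℕ) : ℤ) := by
    rintro ⟨r, hr⟩
    have h2 : IsSquare d := by
      refine ⟨r.natAbs, ?_⟩
      have := congrArg Int.natAbs hr
      rwa [Int.natAbs_mul, Int.natAbs_natCast] at this
    obtain ⟨r, rfl⟩ := h2
    have h3 : r = 1 := by
      have := hd r (dvd_refl _)
      exact Nat.isUnit_iff.1 this
    subst h3
    have h4 : x * (x + 1) = b ^ 2 := by rw [← hb]; ring
    have h5 : x < b := by nlinarith
    have h6 : b < x + 1 := by nlinarith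
    omega
  obtain ⟨s, hs⟩ := Pell.IsFundamental.exists_of_not_isSquare (by exact_mod_cast hd0) hns
  have hbz : ((b : ℤ)) ^ 2 * d = x * (x + 1) := by exact_mod_cast hb
  have huz : (y : ℤ) * (y + 1) = d * u ^ 2 := by exact_mod_cast hu
  let sx : Pell.Solution₁ (d : ℤ) := Pell.Solution₁.mk (2 * x + 1) (2 * b) (by
    linear_combination (-4) * hbz)
  let sy : Pell.Solution₁ (d : ℤ) := Pell.Solution₁.mk (2 * y + 1) (2 * u) (by
    linear_combination 4 * huz)
  have hsxx : sx.x = 2 * x + 1 := rfl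
  have hsxy : sx.y = 2 * b := rfl
  have hsyx : sy.x = 2 * y + 1 := rfl
  have hsyy : sy.y = 2 * u := rfl
  obtain ⟨α, hα⟩ := hs.eq_pow_of_nonneg (a := sx) (by rw [hsxx]; positivity)
    (by rw [hsxy]; positivity)
  obtain ⟨β, hβ⟩ := hs.eq_pow_of_nonneg (a := sy) (by rw [hsyx]; positivity)
    (by rw [hsyy]; positivity)
  have hα0 : 0 < α := by
    rcases Nat.eq_zero_or_pos α with h | h
    · rw [h, pow_zero] at hα
      have : sx.y = 0 := by rw [hα]; rfl
      rw [hsxy] at this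
      omega
    · exact h
  have hβ0 : 0 < β := by
    rcases Nat.eq_zero_or_pos β with h | h
    · rw [h, pow_zero] at hβ
      have : sy.y = 0 := by rw [hβ]; rfl
      rw [hsyy] at this
      omega
    · exact h
  have hsx1 : 1 < s.x := hs.1
  have hsy1 : 0 < s.y := hs.2.1
  have d1 : β ∣ α := by
    refine index_dvd s hsx1 hsy1 α β hβ0 fun p hp hpy => ?_
    rw [← hβ, hsyy] at hpy
    rw [← hα, hsxy]
    have hpZ : Prime (p : ℤ) := Nat.prime_iff_prime_int.1 hp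
    rcases hpZ.dvd_or_dvd hpy with h2 | h2
    · right; exact Dvd.dvd.mul_right h2 _
    · have h3 : p ∣ u := by exact_mod_cast h2
      have h4 : p ∣ y * (y + 1) := by
        rw [hu]; exact Dvd.dvd.mul_left (dvd_pow h3 two_ne_zero) _
      have h5 : p ∣ b ^ 2 * d := by
        rw [hb]
        rcases hp.dvd_mul.1 h4 with h6 | h6
        · exact Dvd.dvd.mul_right ((h0 p hp).2 h6) _
        · exact Dvd.dvd.mul_left ((h1 p hp).2 h6) _
      rcases hp.dvd_mul.1 h5 with h6 | h6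
      · right
        exact Dvd.dvd.mul_left (by exact_mod_cast hp.dvd_of_dvd_pow h6) _
      · left; exact_mod_cast h6
  have d2 : α ∣ β := by
    refine index_dvd s hsx1 hsy1 β α hα0 fun p hp hpy => ?_
    rw [← hα, hsxy] at hpy
    rw [← hβ, hsyy]
    have hpZ : Prime (p : ℤ) := Nat.prime_iff_prime_int.1 hp
    rcases hpZ.dvd_or_dvd hpy with h2 | h2
    · right; exact Dvd.dvd.mul_right h2 _
    · have h3 : p ∣ b := by exact_mod_cast h2
      have h4 : p ∣ x * (x + 1) := by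
        rw [← hb]; exact Dvd.dvd.mul_right (dvd_pow h3 two_ne_zero) _
      have h5 : p ∣ d * u ^ 2 := by
        rw [← hu]
        rcases hp.dvd_mul.1 h4 with h6 | h6
        · exact Dvd.dvd.mul_right ((h0 p hp).1 h6) _
        · exact Dvd.dvd.mul_left ((h1 p hp).1 h6) _
      rcases hp.dvd_mul.1 h5 with h6 | h6
      · left; exact_mod_cast h6
      · right
        exact Dvd.dvd.mul_left (by exact_mod_cast hp.dvd_of_dvd_pow h6) _
  have hab : α = β := Nat.dvd_antisymm d2 d1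
  have h2 : sx = sy := by rw [hα, hβ, hab]
  have h3 : sx.x = sy.x := by rw [h2]
  rw [hsxx, hsyx] at h3
  omega

end Pool.Agent.SQR
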