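import Mathlib
import Pool.Agent.Helper52_SQD.RED
import Pool.Agent.Helper2_SQR.Sto

/-!
# Reduction: a number with a twin is exceptional

If `n`, `m` have the same prime divisors, and so have `n - i`, `m - i` for `i ≤ 2 L ^ 2`, and `n m` is
not a square then `n` is in the exceptional set of the squad SQD.
-/

set_option autoImplicit false

namespace Pool.Agent.SQR

open Pool.Agent.SQD Pool.Agent.SQD.H52

theorem red2 (L n m x y : ℕ) (hL : 1 ≤ L) (hx : 1 ≤ x) (hy : 1 ≤ y)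
    (hxn : n = x + 2 * L ^ 2) (hym : m = y + 2 * L ^ 2) (hwin : Win (2 * L ^ 2) x y)
    (hns : ¬ IsSquare (n * m)) :
    (∃ d : ℕ, ¬ IsSquare d ∧ d ∣ n ∧ d * d ≤ n ∧ Spl L 1 d n) ∨ Spl L 2 2 n := by
  obtain ⟨a, b, hab, hsq⟩ := Nat.sq_mul_squarefree (n * m)
  have hz0 : n * m ≠ 0 := by
    have h1 : 0 < n := by omega
    have h2 : 0 < m := by omega
    positivity
  have ha0 : a ≠ 0 := by
    rintro rfl
    exact hz0 (by rw [← hab, mul_zero])
  -- `a` is not a square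
  have hans : ¬ IsSquare a := by
    rintro ⟨r, hr⟩
    have h1 : IsUnit r := hsq r ⟨1, by rw [hr, mul_one]⟩
    rw [Nat.isUnit_iff] at h1
    apply hns
    rw [← hab, hr, h1]
    exact ⟨b, by ring⟩
  -- `a ∣ n`
  have han : a ∣ n := by
    rw [← Nat.prod_primeFactors_of_squarefree hsq]
    refine Finset.prod_primes_dvd n (fun p hp => (Nat.prime_of_mem_primeFactors hp).prime) ?_
    intro p hp
    have hpp := Nat.prime_of_mem_primeFactors hp
    have h1 : p ∣ n * m := by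
      rw [← hab]
      exact (Nat.dvd_of_mem_primeFactors hp).mul_left _
    rcases hpp.dvd_mul.1 h1 with h2 | h2
    · exact h2
    · rw [hym] at h2
      rw [hxn]
      exact (hwin (2 * L ^ 2) le_rfl p hpp).2 h2
  obtain ⟨t, ht⟩ := han
  -- the key property
  have star : ∀ i : ℕ, 1 ≤ i → i ≤ 2 * L ^ 2 → ∀ q : ℕ, q.Prime → 2 * L ^ 2 < q →
      (q : ℤ) ∣ (n : ℤ) - i → jacobiSym a q = 1 ∧ jacobiSym n q = jacobiSym i q ∧
        ¬ (q : ℤ) ∣ (i : ℤ) ∧ ¬ (q : ℤ) ∣ (n : ℤ) := by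
    intro i hi1 hi2 q hq hq2 hd
    have hqi : ¬ (q : ℤ) ∣ (i : ℤ) := by
      rw [Int.natCast_dvd_natCast]
      intro h
      have := Nat.le_of_dvd hi1 h
      omega
    have hqn : ¬ (q : ℤ) ∣ (n : ℤ) := fun h => hqi (by
      have h2 := dvd_sub h hd
      rwa [sub_sub_cancel] at h2)
    obtain ⟨j, hj⟩ : ∃ j, i + j = 2 * L ^ 2 := ⟨2 * L ^ 2 - i, by omega⟩
    have h1 : q ∣ x + j := by
      rw [← Int.natCast_dvd_natCast]
      have h2 : ((x + j : ℕ) : ℤ) = (n : ℤ) - i := by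
        rw [hxn, ← hj]
        push_cast
        ring
      rw [h2]
      exact hd
    have h2 : q ∣ y + j := (hwin j (by omega) q hq).1 h1
    have h2' : (q : ℤ) ∣ (m : ℤ) - i := by
      have h4 : (m : ℤ) - i = ((y + j : ℕ) : ℤ) := by
        rw [hym, ← hj]
        push_cast
        ring
      rw [h4, Int.natCast_dvd_natCast]
      exact h2
    have h3 : (q : ℤ) ∣ ((b : ℤ) ^ 2 * a) - (i : ℤ) ^ 2 := by
      have h4 : ((b : ℤ) ^ 2 * a) - (i : ℤ) ^ 2 = ((n : ℤ) - i) * m + i * ((m : ℤ) - i) := by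
        have h5 : (b : ℤ) ^ 2 * a = n * m := by exact_mod_cast hab
        rw [h5]
        ring
      rw [h4]
      exact dvd_add (Dvd.dvd.mul_right hd _) (Dvd.dvd.mul_left h2' _)
    have h4 : jacobiSym ((b : ℤ) ^ 2 * a) q = jacobiSym ((i : ℤ) ^ 2) q := by
      apply jacobiSym.mod_left'
      exact Int.ModEq.symm ((Int.modEq_iff_dvd).2 h3)
    rw [jacobiSym.mul_left, jacobiSym.pow_left, jacobiSym.pow_left, jac_sq hq hqi] at h4
    have hqb : ¬ (q : ℤ) ∣ (b : ℤ) := by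
      intro h
      have h5 : (q : ℤ) ∣ (i : ℤ) ^ 2 := by
        have h6 : (q : ℤ) ∣ (b : ℤ) ^ 2 * a := (dvd_pow h two_ne_zero).mul_right _
        have h7 := dvd_sub h6 h3
        rwa [sub_sub_cancel] at h7
      exact hqi ((Nat.prime_iff_prime_int.1 hq).dvd_of_dvd_pow h5)
    rw [jac_sq hq hqb, one_mul] at h4
    refine ⟨h4, ?_, hqi, hqn⟩
    apply jacobiSym.mod_left'
    exact Int.ModEq.symm ((Int.modEq_iff_dvd).2 hd)
  have hjn : ∀ q : ℕ, jacobiSym n q = jacobiSym a q * jacobiSym t q := by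
    intro q
    rw [← jacobiSym.mul_left, ht]
    push_cast
    rfl
  by_cases hcase : a * a ≤ n
  · left
    refine ⟨a, hans, ⟨t, ht⟩, hcase, ?_⟩
    intro k hk1 hkL q hq hq2 hd
    have hk : k ^ 2 ≤ L ^ 2 := Nat.pow_le_pow_left hkL 2
    refine (star (k ^ 2) (Nat.pow_pos hk1) (by omega) q hq hq2 ?_).1
    push_cast
    simpa using hd
  · have htt : t * t ≤ n := by
      by_contra hcon
      have h1 : n * n < (a * a) * (t * t) :=
        Nat.mul_lt_mul_of_lt_of_lt (by omega) (by omega)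
      have h2 : (a * a) * (t * t) = n * n := by
        rw [ht]
        ring
      omega
    by_cases hts : IsSquare t
    · right
      obtain ⟨s, hs⟩ := hts
      intro k hk1 hkL q hq hq2 hd
      have hk : k ^ 2 ≤ L ^ 2 := Nat.pow_le_pow_left hkL 2
      have hk0 : 0 < k ^ 2 := Nat.pow_pos hk1
      obtain ⟨h1, h2, h3, h4⟩ := star (2 * k ^ 2) (by omega) (by omega) q hq hq2 (by
        push_cast
        simpa using hd)
      rw [hjn, h1, one_mul, hs] at h2
      push_cast at h2 h3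
      rw [jacobiSym.mul_left, jacobiSym.mul_left 2, jacobiSym.pow_left] at h2
      have hqk : ¬ (q : ℤ) ∣ (k : ℤ) := fun h => h3 ((dvd_pow h two_ne_zero).mul_left 2)
      have hqs : ¬ (q : ℤ) ∣ (s : ℤ) := fun h => h4 (by
        rw [ht, hs]
        push_cast
        exact (h.mul_right _).mul_left _)
      have h5 := jac_sq hq hqs
      rw [sq] at h5
      rw [h5, jac_sq hq hqk, mul_one] at h2
      exact_mod_cast h2.symm
    · left
      refine ⟨t, hts, ⟨a, by rw [ht, mul_comm]⟩, htt, ?_⟩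
      intro k hk1 hkL q hq hq2 hd
      have hk : k ^ 2 ≤ L ^ 2 := Nat.pow_le_pow_left hkL 2
      obtain ⟨h1, h2, h3, h4⟩ := star (k ^ 2) (Nat.pow_pos hk1) (by omega) q hq hq2 (by
        push_cast
        simpa using hd)
      rw [hjn, h1, one_mul] at h2
      push_cast at h2 h3
      rw [jacobiSym.pow_left, jac_sq hq fun h => h3 (dvd_pow h two_ne_zero)] at h2
      exact h2

/-- the exceptional set of the squad SQD -/
def Bad (L n : ℕ) : Prop :=
  (∃ d : ℕ, ¬ IsSquare d ∧ d ∣ n ∧ d * d ≤ n ∧ Spl L 1 d n) ∨ Spl L 2 2 n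

/-- **Rigidity**: `n` is determined by the prime divisors of `n, n - 1, ..., n - (2 L ^ 2 + 1)` if
`n` and `n - 1` are not exceptional. -/
theorem rigid (L x y : ℕ) (hL : 1 ≤ L) (hx : 1 ≤ x) (hy : 1 ≤ y)
    (hwin : Win (2 * L ^ 2 + 1) x y) (h0 : ¬ Bad L (x + (2 * L ^ 2 + 1)))
    (h1 : ¬ Bad L (x + 2 * L ^ 2)) : x = y := by
  have hw0 : Win (2 * L ^ 2) x y := fun j hj p hp => hwin j (by omega) p hp
  have hw1 : Win (2 * L ^ 2) (x + 1) (y + 1) := fun j hj p hp => by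
    have := hwin (j + 1) (by omega) p hp
    rwa [show x + (j + 1) = x + 1 + j by ring, show y + (j + 1) = y + 1 + j by ring] at this
  have s0 : IsSquare ((x + 2 * L ^ 2) * (y + 2 * L ^ 2)) := by
    by_contra hns
    exact h1 (red2 L _ _ x y hL hx hy rfl rfl hw0 hns)
  have s1 : IsSquare ((x + 1 + 2 * L ^ 2) * (y + 1 + 2 * L ^ 2)) := by
    by_contra hns
    refine h0 ?_
    have := red2 L _ _ (x + 1) (y + 1) hL (by omega) (by omega) rfl rfl hw1 hns
    rwa [show x + 1 + 2 * L ^ 2 = x + (2 * L ^ 2 + 1) by ring] at this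
  have := sto (x + 2 * L ^ 2) (y + 2 * L ^ 2) (by omega) (by omega)
    (fun p hp => hwin (2 * L ^ 2) (by omega) p hp)
    (fun p hp => hwin (2 * L ^ 2 + 1) (by omega) p hp) s0
    (by rwa [show x + 1 + 2 * L ^ 2 = x + 2 * L ^ 2 + 1 by ring,
      show y + 1 + 2 * L ^ 2 = y + 2 * L ^ 2 + 1 by ring] at s1)
  omega

end Pool.Agent.SQR
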