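import Mathlib
import Pool.Agent.Helper2_SQR.Red
import Pool.Agent.Helper2_SQR.Def
import Pool.Agent.Helper90_SQD.FIN

/-!
# Assembly
-/

set_option autoImplicit false

namespace Pool.Agent.SQR

open FirstOrder FirstOrder.Language Pool.Agent.SqDef Pool.Agent.SQD

variable {L : FirstOrder.Language.{0, 0}} [L.Structure ℕ]

/-- the number of exceptions `n ≤ x` -/
theorem rig_count (hCnt : CntStmt) (A : ℕ) :
    ∃ C : ℝ, 0 ≤ C ∧ ∀ x : ℕ, 2 ≤ x →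
      ({n : ℕ | n ≤ x ∧ ¬ Rig (2 * (LA A) ^ 2 + 1) n}.ncard : ℝ) ≤ C * x / (Real.log x) ^ A := by
  obtain ⟨C, hC⟩ := hCnt A
  set K : ℕ := 2 * (LA A) ^ 2 + 1 with hK
  have hL : 1 ≤ LA A := by unfold LA; omega
  have hC0 : 0 ≤ C := by
    have h1 := hC 3 (by norm_num)
    have h2 : (0 : ℝ) ≤ C * (3 : ℕ) / (Real.log (3 : ℕ)) ^ A := le_trans (by positivity) h1
    have h3 : 0 < (Real.log (3 : ℕ)) ^ A := pow_pos (Real.log_pos (by norm_num)) A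
    rw [le_div_iff₀ h3, zero_mul] at h2
    push_cast at h2
    linarith
  refine ⟨((K : ℝ) + 2) * A.factorial + 2 * C, by positivity, fun x hx => ?_⟩
  have hx1 : (1 : ℝ) < x := by exact_mod_cast (by omega : 1 < x)
  have hlog : 0 < Real.log x := Real.log_pos hx1
  set B : Set ℕ := {n : ℕ | 1 ≤ n ∧ n ≤ x ∧
        ((∃ d : ℕ, ¬ IsSquare d ∧ d ∣ n ∧ d * d ≤ n ∧ Spl (LA A) 1 d n) ∨
          Spl (LA A) 2 2 n)} with hB
  have hfin : B.Finite := (Set.finite_Iic x).subset fun n hn => hn.2.1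
  have hsub : {n : ℕ | n ≤ x ∧ ¬ Rig K n} ⊆ Set.Iic K ∪ (B ∪ (fun n => n + 1) '' B) := by
    rintro n ⟨hn, hne⟩
    rcases Nat.lt_or_ge K n with h | h
    · right
      by_contra hcon
      apply hne
      obtain ⟨u, rfl⟩ : ∃ u, n = u + K := ⟨n - K, by omega⟩
      have hu : 1 ≤ u := by omega
      refine ⟨u, hu, rfl, fun v hv hw => ?_⟩
      have h0 : ¬ Bad (LA A) (u + (2 * (LA A) ^ 2 + 1)) := fun hb =>
        hcon (Or.inl ⟨by omega, hn, hb⟩)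
      have h1 : ¬ Bad (LA A) (u + 2 * (LA A) ^ 2) := fun hb =>
        hcon (Or.inr ⟨u + 2 * (LA A) ^ 2, ⟨by omega, by omega, hb⟩, rfl⟩)
      exact (rigid (LA A) u v hL hu hv (by rw [← hK]; exact hw) h0 h1).symm
    · left; exact h
  have h1 := (Set.ncard_le_ncard hsub ((Set.finite_Iic K).union
    (hfin.union (hfin.image _)))).trans (Set.ncard_union_le _ _)
  have h2 : (Set.Iic K).ncard = K + 1 := by
    rw [← Finset.coe_Iic, Set.ncard_coe_finset, Nat.card_Iic]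
  have h5 : (B ∪ (fun n => n + 1) '' B).ncard ≤ B.ncard + B.ncard :=
    (Set.ncard_union_le _ _).trans (Nat.add_le_add_left (Set.ncard_image_le hfin) _)
  rw [h2] at h1
  have h3 := hC x hx
  rw [← hB] at h3
  have h4 : (1 : ℝ) ≤ A.factorial * x / (Real.log x) ^ A := by
    rw [le_div_iff₀ (by positivity), one_mul]
    exact Pool.Agent.SQD.H90.log_pow_le A x (by omega)
  have h6 : ({n : ℕ | n ≤ x ∧ ¬ Rig K n}.ncard : ℝ) ≤ ((K : ℝ) + 2) * 1 + 2 * (B.ncard : ℝ) := by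
    have h7 : {n : ℕ | n ≤ x ∧ ¬ Rig K n}.ncard ≤ (K + 2) + 2 * B.ncard := by omega
    calc ({n : ℕ | n ≤ x ∧ ¬ Rig K n}.ncard : ℝ) ≤ (((K + 2) + 2 * B.ncard : ℕ) : ℝ) := by
          exact_mod_cast h7
      _ = ((K : ℝ) + 2) * 1 + 2 * (B.ncard : ℝ) := by push_cast; ring
  calc ({n : ℕ | n ≤ x ∧ ¬ Rig K n}.ncard : ℝ) ≤ ((K : ℝ) + 2) * 1 + 2 * (B.ncard : ℝ) := h6
    _ ≤ ((K : ℝ) + 2) * (A.factorial * x / (Real.log x) ^ A) +
        2 * (C * x / (Real.log x) ^ A) := by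
        gcongr
    _ = _ := by ring

/-- the number of exceptions `n ^ 2` -/
theorem twn_count (hRed : RedStmt) (hCnt : CntStmt) (A : ℕ) :
    ∃ C : ℝ, 0 ≤ C ∧ ∀ x : ℕ, 2 ≤ x →
      ({n : ℕ | n ≤ x ∧ ¬ Pool.Agent.SQD.H90.Twn (4 * (LA A) ^ 4)
        (fun n => IsSquare n) (n ^ 2)}.ncard : ℝ) ≤ C * x / (Real.log x) ^ A := by
  set K : ℕ := 4 * (LA A) ^ 4 with hK
  have hL : 1 ≤ LA A := by unfold LA; omega
  obtain ⟨C, hC⟩ := hCnt A
  have hC0 : 0 ≤ C := by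
    have h1 := hC 3 (by norm_num)
    have h2 : (0 : ℝ) ≤ C * (3 : ℕ) / (Real.log (3 : ℕ)) ^ A := le_trans (by positivity) h1
    have h3 : 0 < (Real.log (3 : ℕ)) ^ A := pow_pos (Real.log_pos (by norm_num)) A
    rw [le_div_iff₀ h3, zero_mul] at h2
    push_cast at h2
    linarith
  refine ⟨((K : ℝ) + 1) * A.factorial + C, by positivity, fun x hx => ?_⟩
  have hx1 : (1 : ℝ) < x := by exact_mod_cast (by omega : 1 < x)
  have hlog : 0 < Real.log x := Real.log_pos hx1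
  set B : Set ℕ := {n : ℕ | 1 ≤ n ∧ n ≤ x ∧
        ((∃ d : ℕ, ¬ IsSquare d ∧ d ∣ n ∧ d * d ≤ n ∧ Spl (LA A) 1 d n) ∨
          Spl (LA A) 2 2 n)} with hB
  have hsub : {n : ℕ | n ≤ x ∧ ¬ Pool.Agent.SQD.H90.Twn K (fun n => IsSquare n) (n ^ 2)} ⊆
      Set.Iic K ∪ B := by
    rintro n ⟨hn, hne⟩
    rcases Nat.lt_or_ge K n with h | h
    · right
      have hn1 : 1 ≤ n := by omega
      have hn2 : K + 1 ≤ n ^ 2 := (Nat.succ_le_of_lt h).trans (Nat.le_self_pow two_ne_zero n)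
      refine ⟨hn1, hn, ?_⟩
      by_contra hcon
      apply hne
      refine ⟨n ^ 2 - K, by omega, by omega, fun v hv hw => ?_⟩
      by_contra hsq
      exact hcon (hRed (LA A) n (n ^ 2 - K) v hL hn1 (by omega) hv (by rw [← hK]; omega)
        (by rw [← hK]; exact hw) (by rw [← hK]; exact hsq))
    · left; exact h
  have hfin : B.Finite := (Set.finite_Iic x).subset fun n hn => hn.2.1
  have h1 := (Set.ncard_le_ncard hsub ((Set.finite_Iic K).union hfin)).trans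
    (Set.ncard_union_le _ _)
  have h2 : (Set.Iic K).ncard = K + 1 := by
    rw [← Finset.coe_Iic, Set.ncard_coe_finset, Nat.card_Iic]
  rw [h2] at h1
  have h3 := hC x hx
  rw [← hB] at h3
  have h4 : (1 : ℝ) ≤ A.factorial * x / (Real.log x) ^ A := by
    rw [le_div_iff₀ (by positivity), one_mul]
    exact Pool.Agent.SQD.H90.log_pow_le A x (by omega)
  calc ({n : ℕ | n ≤ x ∧ ¬ Pool.Agent.SQD.H90.Twn K (fun n => IsSquare n) (n ^ 2)}.ncard : ℝ)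
      ≤ ((K + 1 + B.ncard : ℕ) : ℝ) := by exact_mod_cast h1
    _ = ((K : ℝ) + 1) * 1 + (B.ncard : ℝ) := by push_cast; ring
    _ ≤ ((K : ℝ) + 1) * (A.factorial * x / (Real.log x) ^ A) + C * x / (Real.log x) ^ A := by
        gcongr
    _ = _ := by ring

/-- The main theorem. -/
theorem main (hRed : RedStmt) (hCnt : CntStmt) (σ : Sig L) (A : ℕ) :
    ∃ M M' : Set ℕ, M ⊆ M' ∧
      (∃ C : ℝ, ∀ x : ℕ, 2 ≤ x →
        ({n : ℕ | n ≤ x ∧ n ∉ M}.ncard : ℝ) ≤ C * x / (Real.log x) ^ A ∧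
        ({n : ℕ | n ≤ x ∧ n ^ 2 ∉ M'}.ncard : ℝ) ≤ C * x / (Real.log x) ^ A) ∧
      (∀ (r : ℕ) (R : Set (Fin r → ℕ)), Set.Definable (∅ : Set ℕ) arithLang R →
        Set.Definable (∅ : Set ℕ) L {v : Fin r → ℕ | (∀ i, v i ∈ M) ∧ v ∈ R}) ∧
      Set.Definable (∅ : Set ℕ) L {v : Fin 1 → ℕ | v 0 ∈ M'} ∧
      Set.Definable (∅ : Set ℕ) L {v : Fin 1 → ℕ | v 0 ∈ M' ∧ IsSquare (v 0)} := by
  obtain ⟨C₁, hC₁, h₁⟩ := rig_count hCnt A
  obtain ⟨C₂, hC₂, h₂⟩ := twn_count hRed hCnt A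
  set K₁ : ℕ := 2 * (LA A) ^ 2 + 1
  set K₂ : ℕ := 4 * (LA A) ^ 4
  set E : Set ℕ := {y | Pool.Agent.SQD.H90.Twn K₂ (fun n => IsSquare n) y} with hE
  have hEd : Set.Definable (∅ : Set ℕ) L {v : Fin 1 → ℕ | v 0 ∈ E} :=
    Pool.Agent.SQD.H90.def_twn σ K₂
  have hMd : Set.Definable (∅ : Set ℕ) L {v : Fin 1 → ℕ | Rig K₁ (v 0)} :=
    D1.definable (exists_code σ K₁).1
  have hMs : Set.Definable (∅ : Set ℕ) L {v : Fin 1 → ℕ | Rig K₁ (v 0) ∧ IsSquare (v 0)} := by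
    have h := rig_definable σ K₁ 1 {v : Fin 1 → ℕ | IsSquare (v 0)} squares_arith
    have e : {v : Fin 1 → ℕ | Rig K₁ (v 0) ∧ IsSquare (v 0)} =
        {v : Fin 1 → ℕ | (∀ i, Rig K₁ (v i)) ∧ v ∈ {v : Fin 1 → ℕ | IsSquare (v 0)}} := by
      ext v
      change (Rig K₁ (v 0) ∧ IsSquare (v 0)) ↔ ((∀ i, Rig K₁ (v i)) ∧ IsSquare (v 0))
      constructor
      · rintro ⟨g1, g2⟩
        exact ⟨fun i => by rw [Subsingleton.elim i 0]; exact g1, g2⟩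
      · rintro ⟨g1, g2⟩
        exact ⟨g1 0, g2⟩
    rw [e]
    exact h
  refine ⟨{y | Rig K₁ y}, {y | Rig K₁ y} ∪ E, Set.subset_union_left,
    ⟨max C₁ C₂, fun x hx => ⟨?_, ?_⟩⟩, fun r R hR => rig_definable σ K₁ r R hR, ?_, ?_⟩
  · have hx1 : (1 : ℝ) < x := by exact_mod_cast (by omega : 1 < x)
    have hlog : 0 < Real.log x := Real.log_pos hx1
    refine (h₁ x hx).trans ?_
    gcongr
    exact le_max_left _ _
  · have hx1 : (1 : ℝ) < x := by exact_mod_cast (by omega : 1 < x)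
    have hlog : 0 < Real.log x := Real.log_pos hx1
    refine le_trans ?_ ((h₂ x hx).trans ?_)
    · have hfin : {n : ℕ | n ≤ x ∧ ¬ Pool.Agent.SQD.H90.Twn K₂
          (fun n => IsSquare n) (n ^ 2)}.Finite :=
        (Set.finite_Iic x).subset fun n hn => hn.1
      have hss : {n : ℕ | n ≤ x ∧ n ^ 2 ∉ {y | Rig K₁ y} ∪ E} ⊆
          {n : ℕ | n ≤ x ∧ ¬ Pool.Agent.SQD.H90.Twn K₂ (fun n => IsSquare n) (n ^ 2)} :=
        fun n hn => ⟨hn.1, fun h => hn.2 (Or.inr h)⟩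
      exact_mod_cast Set.ncard_le_ncard hss hfin
    · gcongr
      exact le_max_right _ _
  · exact hMd.union hEd
  · have e : {v : Fin 1 → ℕ | v 0 ∈ {y | Rig K₁ y} ∪ E ∧ IsSquare (v 0)} =
        {v : Fin 1 → ℕ | Rig K₁ (v 0) ∧ IsSquare (v 0)} ∪ {v : Fin 1 → ℕ | v 0 ∈ E} := by
      ext v
      constructor
      · rintro ⟨g1 | g1, g2⟩
        · exact Or.inl ⟨g1, g2⟩
        · exact Or.inr g1
      · rintro (⟨g1, g2⟩ | g1)
        · exact ⟨Or.inl g1, g2⟩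
        · exact ⟨Or.inr g1, Pool.Agent.SQD.H90.twn_square g1⟩
    rw [e]
    exact hMs.union hEd

end Pool.Agent.SQR
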